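import Pool.Agent.W209.CF.Basic

/-! Project CF3, part F8: the facts F8, F8p, F11. -/

namespace Pool.Agent.W91.CF3.F8

open Finset Pool.Agent.W209.CF

section
variable {V E : Type} [Fintype V] [DecidableEq V] [Fintype E] [DecidableEq E]
variable {inc : E → Finset V}

set_option linter.unusedSectionVars false

lemma mem_LL {s : E → Fin 3} {X : Finset E} {v : V} :
    v ∈ LL inc s X ↔ dg inc s v = 0 ∧ ∀ f ∈ X, v ∉ inc f := by
  unfold LL
  rw [Finset.mem_filter, mem_holes]

end

theorem f8 : S_F2 → S_F8 := by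
  intro hF2 V E _ _ _ _ inc hcard s X hO u hu w hw hne f huf hwf
  obtain ⟨hO2, ⟨hX1, hX2⟩, hmax⟩ := hO
  rw [mem_LL] at hu hw
  obtain ⟨z, hz, hzu, hzw, hz2, -⟩ := hF2 V E inc hcard s hO2 f u huf w hwf hne hu.1 hw.1
  have hfX : f ∉ X := fun h => hu.2 f h huf
  have hcap : inc f ∩ holes inc s = {u, w} := by
    ext v
    rw [Finset.mem_inter, mem_holes, hz]
    simp only [Finset.mem_insert, Finset.mem_singleton]
    constructor
    · rintro ⟨h1 | h1 | h1, h2⟩
      · exact Or.inl h1
      · exact Or.inr h1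
      · rw [h1, hz2] at h2; omega
    · rintro (h | h)
      · rw [h]; exact ⟨Or.inl rfl, hu.1⟩
      · rw [h]; exact ⟨Or.inr (Or.inl rfl), hw.1⟩
  have hdisj : ∀ g ∈ X, Disjoint (inc f ∩ holes inc s) (inc g ∩ holes inc s) := by
    intro g hg
    rw [hcap, Finset.disjoint_left]
    intro v hv hv2
    rw [Finset.mem_inter] at hv2
    rcases Finset.mem_insert.mp hv with h | h
    · exact hu.2 g hg (h ▸ hv2.1)
    · exact hw.2 g hg ((Finset.mem_singleton.mp h) ▸ hv2.1)
  have hT : TwoH inc s (insert f X) := by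
    refine ⟨?_, ?_⟩
    · intro g hg
      rcases Finset.mem_insert.mp hg with h | h
      · rw [h, hcap, Finset.card_pair hne]
      · exact hX1 g h
    · intro g hg g' hg' hgg
      rcases Finset.mem_insert.mp hg with h | h
      · rcases Finset.mem_insert.mp hg' with h' | h'
        · exact absurd (h.trans h'.symm) hgg
        · rw [h]; exact hdisj g' h'
      · rcases Finset.mem_insert.mp hg' with h' | h'
        · rw [h']; exact (hdisj g h).symm
        · exact hX2 g h g' h' hgg
  have h1 := hmax s (insert f X) hO2 hT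
  rw [Finset.card_insert_of_notMem hfX] at h1
  omega

theorem f8p : S_oddK → S_move → S_F8 → S_F8p := by
  intro hodd hmove hF8 V E _ _ _ _ inc hcard s X hO u hu w hw hwu h hE f hwf p hpf hpK
  obtain ⟨hK, hkd⟩ := hodd V E inc hcard s hO.1 u h hE
  have h2 := hK.kd2 p
  have h0 := kd_pos.mpr hpK
  by_contra hne
  have h1 : kd inc (KK inc s h) p = 1 := by omega
  obtain ⟨e, heK, hpe⟩ := mem_VK.mp hpK
  obtain ⟨s', p', hp'e, hp'1, hO', -, -, hLL, -, -, -⟩ :=
    hmove V E inc hcard s X hO u hu h hE e heK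
  have hpp : p' = p := by
    obtain ⟨p0, -, -, hp2⟩ := hK.pri1 e heK
    have e1 : p = p0 := by
      by_contra hc
      have := hp2 p hpe hc
      omega
    have e2 : p' = p0 := by
      by_contra hc
      have := hp2 p' hp'e hc
      omega
    rw [e1, e2]
  have hw0 : dg inc s w = 0 := (mem_LL.mp hw).1
  have hpw : p ≠ w := by
    rintro rfl
    have h3 := hkd _ hpK
    rw [h1, hw0] at h3
    by_cases hph : p ∈ inc h
    · have := hE.2.2 p hph hwu
      omega
    · rw [if_neg hph] at h3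
      omega
  have hp' : p ∈ LL inc s' X := by
    rw [hLL, hpp]; exact Finset.mem_insert_self _ _
  have hw' : w ∈ LL inc s' X := by
    rw [hLL]; exact Finset.mem_insert_of_mem (Finset.mem_erase.mpr ⟨hwu, hw⟩)
  exact hF8 V E inc hcard s' X hO' p hp' w hw' hpw f hpf hwf

theorem f11 : S_oddK → S_F8p → S_F11 := by
  intro hodd hF8p V E _ _ _ _ inc hcard s X hO u hu w hw huw h h' hE hE' hcc v hv hvw
  obtain ⟨-, hkd⟩ := hodd V E inc hcard s hO.1 u h hE
  have hd1 : dg inc s v = 1 := hE'.2.2 v hv hvw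
  obtain ⟨e, hve, hse⟩ := dg_pos.mp (by rw [hd1]; exact one_ne_zero : dg inc s v ≠ 0)
  have hec : e ∈ comp inc s h := by
    rw [hcc]; exact comp_touch hse hv hve
  have hvK : v ∈ VK inc (KK inc s h) :=
    mem_VK.mpr ⟨e, by rw [KK, Finset.mem_insert]; exact Or.inr hec, hve⟩
  have h2 := hF8p V E inc hcard s X hO u hu w hw huw.symm h hE h' hE'.1 v hv hvK
  rw [hkd v hvK, hd1] at h2
  by_contra hc
  rw [if_neg hc] at h2
  omega

end Pool.Agent.W91.CF3.F8
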