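import Pool.Agent.W209.CF.Basic

/-! Project CF3, part STEP: processing one token. -/

namespace Pool.Agent.W91.CF3

open Finset Pool.Agent.W209.CF

section
variable {V E : Type} [Fintype V] [DecidableEq V] [Fintype E] [DecidableEq E]
variable {inc : E → Finset V}

set_option linter.unusedSectionVars false

lemma cnt_zero_of_dg {c : E → Fin 3} {v : V} (h : dg inc c v = 0) {i : Fin 3} (hi : i ≠ 0) :
    cnt inc c i v = 0 := by
  unfold dg at h
  rcases eq_one_or_two hi with rfl | rfl <;> omega

lemma good_of {c : E → Fin 3} {v : V} {i : Fin 3} (hi : i ≠ 0) (h : cnt inc c i v = 1) :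
    Good inc c v := by
  rcases eq_one_or_two hi with rfl | rfl
  · exact Or.inl h
  · exact Or.inr h

lemma exists_al {c : E → Fin 3} {v : V} (h : Good inc c v) :
    ∃ γ : Fin 3, γ ≠ 0 ∧ cnt inc c (opp γ) v = 1 := by
  rcases h with h | h
  · exact ⟨2, by decide, by rw [opp_two]; exact h⟩
  · exact ⟨1, by decide, by rw [opp_one]; exact h⟩

lemma one_of_pair {c : E → Fin 3} {v : V} (h : cnt inc c 1 v = 1 ∧ cnt inc c 2 v = 1)
    {i : Fin 3} (hi : i ≠ 0) : cnt inc c i v = 1 := by
  rcases eq_one_or_two hi with rfl | rfl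
  · exact h.1
  · exact h.2

lemma pair_congr {c c' : E → Fin 3} {v : V} (h : cnt inc c 1 v = 1 ∧ cnt inc c 2 v = 1)
    (hcc : ∀ i, i ≠ 0 → cnt inc c' i v = cnt inc c i v) :
    cnt inc c' 1 v = 1 ∧ cnt inc c' 2 v = 1 := by
  rw [hcc 1 (by decide), hcc 2 (by decide)]; exact h

lemma good_congr {c c' : E → Fin 3} {v : V} (h : Good inc c v)
    (hcc : ∀ i, i ≠ 0 → cnt inc c' i v = cnt inc c i v) : Good inc c' v := by
  unfold Good at *
  rw [hcc 1 (by decide), hcc 2 (by decide)]; exact h

lemma dg_of_cnt {c c' : E → Fin 3} {v : V} (h : dg inc c v = 0)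
    (hcc : ∀ i, i ≠ 0 → cnt inc c' i v = cnt inc c i v) : dg inc c' v = 0 := by
  unfold dg at *
  rw [hcc 1 (by decide), hcc 2 (by decide)]; exact h

end

theorem step : S_flip → S_step := by
  intro hflip V E _ _ _ _ inc hcard s D c P S w hI hwT hwP hσ1 hτs
  obtain ⟨hgw, hne1, hne2, hne3⟩ := D.hg w hwT
  have hT0w := D.hT0 w hwT
  have hmem : ∀ v, v ∈ inc (D.g w) ↔ v = w ∨ v = D.σ w ∨ v = D.τ w := by
    intro v; rw [hgw]; simp
  have hσT : D.σ w ∉ D.T := by
    intro h
    have h1 := D.hT0 _ h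
    rcases D.hslot w hwT with h2 | ⟨h2, -⟩ <;> omega
  have hτT : D.τ w ∉ D.T := D.hτ w hwT
  -- tokens are in no `VK (K u)`
  have hTK : ∀ v ∈ D.T, ∀ u ∈ D.U, v ∉ VK inc (D.K u) := by
    intro v hv u hu h
    have hvu : v ≠ u := by
      rintro rfl
      exact (Finset.disjoint_left.mp D.hUT hu) hv
    exact D.hKh u hu v h hvu (D.hT0 v hv)
  have hcw : dg inc c w = 0 := hI.zero w (Or.inl ⟨hwT, hwP⟩)
  have hcg : c (D.g w) = 0 := dg_eq_zero.mp hcw _ ((hmem w).mpr (Or.inl rfl))
  have hPT : insert w P ⊆ D.T := by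
    intro v hv
    rcases Finset.mem_insert.mp hv with rfl | hv
    · exact hwT
    · exact hI.hP hv
  -- slots of the other tokens are not in `inc (g w)`
  have hslot' : ∀ w' ∈ D.T, w' ∉ insert w P → dg inc s (D.σ w') = 2 → D.σ w' ∉ inc (D.g w) := by
    intro w' hw' hwP' h2 hm
    rw [Finset.mem_insert, not_or] at hwP'
    rcases (hmem _).mp hm with h | h | h
    · rw [h] at h2; omega
    · exact hwP'.1 (D.hσ w' hw' w hwT h)
    · exact hτs w' hw' hwP'.2 hwP'.1 h2 h
  by_cases hB : ∃ u ∈ D.U, u ∉ S ∧ ∃ v ∈ inc (D.g w), v ∈ VK inc (D.K u)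
  · -- CASE B
    obtain ⟨u, huU, huS, v0, hv0, hv0K⟩ := hB
    have hother : ∀ u' ∈ D.U, u' ≠ u → ∀ v ∈ inc (D.g w), v ∉ VK inc (D.K u') := by
      intro u' hu' hne v hv hvK
      exact hne (D.hone w hwT u' hu' u huU v hv v0 hv0 hvK hv0K)
    have hwK : w ∉ VK inc (D.K u) := hTK w hwT u huU
    -- the vertex x
    obtain ⟨x, hxg, hxK⟩ : ∃ x, (x = D.σ w ∨ x = D.τ w) ∧ x ∈ VK inc (D.K u) := by
      rcases (hmem _).mp hv0 with h | h | h
      · exact absurd (h ▸ hv0K) hwK
      · exact ⟨D.σ w, Or.inl rfl, h ▸ hv0K⟩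
      · exact ⟨D.τ w, Or.inr rfl, h ▸ hv0K⟩
    have hxg' : x ∈ inc (D.g w) := (hmem x).mpr (Or.inr hxg)
    have hkx : kd inc (D.K u) x = 2 := D.hcyc w hwT u huU x hxg' hxK
    -- the colour
    obtain ⟨γ, hγ, hγτ⟩ : ∃ γ : Fin 3, γ ≠ 0 ∧
        (D.τ w ∉ VK inc (D.K u) → cnt inc c (opp γ) (D.τ w) = 1) := by
      by_cases hτK : D.τ w ∈ VK inc (D.K u)
      · exact ⟨1, by decide, fun h => absurd hτK h⟩
      · have hgood : Good inc c (D.τ w) := by
          apply hI.good
          rintro (⟨h, -⟩ | ⟨u', hu', -, hv'⟩)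
          · exact hτT h
          · by_cases hu'u : u' = u
            · exact hτK (hu'u ▸ hv')
            · exact hother u' hu' hu'u _ ((hmem _).mpr (Or.inr (Or.inr rfl))) hv'
        obtain ⟨γ, h1, h2⟩ := exists_al hgood
        exact ⟨γ, h1, fun _ => h2⟩
    have hoγ : opp γ ≠ 0 := opp_ne_zero hγ
    have hoγ' : γ ≠ opp γ := (opp_ne_self hγ).symm
    obtain ⟨d, hd1, hd2, hd3, hd4, hd5⟩ :=
      hflip V E inc hcard (D.K u) (D.hKodd u huU) x hkx (opp γ) hoγ
    rw [opp_opp] at hd3
    have hzK : ∀ v ∈ VK inc (D.K u), dg inc c v = 0 :=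
      fun v hv => hI.zero v (Or.inr ⟨u, huU, huS, hv⟩)
    have hcK : ∀ e ∈ D.K u, c e = 0 := by
      intro e he
      have : (inc e).Nonempty := by
        rw [← Finset.card_pos, hcard e]; norm_num
      obtain ⟨v, hv⟩ := this
      exact dg_eq_zero.mp (hzK v (mem_VK.mpr ⟨e, he, hv⟩)) e hv
    have hgK : D.g w ∉ D.K u := fun h =>
      hwK (mem_VK.mpr ⟨_, h, (hmem w).mpr (Or.inl rfl)⟩)
    have hjoin : ∀ e, d e = 0 ∨ Function.update c (D.g w) γ e = 0 := by
      intro e
      by_cases hde : d e = 0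
      · exact Or.inl hde
      · right
        have heK := hd1 e hde
        have hne : e ≠ D.g w := fun h => hgK (h ▸ heK)
        rw [Function.update_of_ne hne]
        exact hcK e heK
    set c' : E → Fin 3 := join d (Function.update c (D.g w) γ) with hc'
    have hcnt : ∀ i, i ≠ 0 → ∀ v, cnt inc c' i v = cnt inc d i v + (cnt inc c i v +
        (if v ∈ inc (D.g w) ∧ γ = i then 1 else 0)) := by
      intro i hi v
      rw [hc', cnt_join (fun e _ => hjoin e) hi, cnt_update hcg γ hi]
    have hdout : ∀ i, i ≠ 0 → ∀ v, v ∉ VK inc (D.K u) → cnt inc d i v = 0 := by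
      intro i hi v hv
      rw [cnt_eq_zero]
      intro e he hde
      exact hv (mem_VK.mpr ⟨e, hd1 e (by rw [hde]; exact hi), he⟩)
    have hcin : ∀ i, i ≠ 0 → ∀ v, v ∈ VK inc (D.K u) → cnt inc c i v = 0 :=
      fun i hi v hv => cnt_zero_of_dg (hzK v hv) hi
    -- outside `K u` and `g w` nothing changes
    have hsame : ∀ v, v ∉ inc (D.g w) → v ∉ VK inc (D.K u) →
        ∀ i, i ≠ 0 → cnt inc c' i v = cnt inc c i v := by
      intro v h1 h2 i hi
      rw [hcnt i hi, hdout i hi v h2, if_neg (fun h => h1 h.1)]; omega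
    refine ⟨c', insert u S, Finset.subset_insert _ _, ⟨hPT, ?_, ?_, ?_, ?_⟩, ?_, ?_, ?_⟩
    · intro v hv
      rcases Finset.mem_insert.mp hv with rfl | hv
      · exact huU
      · exact hI.hS hv
    · -- good
      intro v hv
      by_cases hvK : v ∈ VK inc (D.K u)
      · by_cases hvx : v = x
        · subst hvx
          apply good_of hγ
          rw [hcnt γ hγ, hd3, hcin γ hγ _ hvK, if_pos ⟨hxg', rfl⟩]
        · have h2 := (D.hKodd u huU).kd2 v
          have h0 := kd_pos.mpr hvK
          by_cases hk : kd inc (D.K u) v = 2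
          · apply good_of hoγ
            rw [hcnt _ hoγ, one_of_pair (hd4 v hvx hk) hoγ, hcin _ hoγ _ hvK,
              if_neg (fun h => hoγ' h.2)]
          · have hk1 : kd inc (D.K u) v = 1 := by omega
            have hvg : v ∉ inc (D.g w) := fun h => hk (D.hcyc w hwT u huU v h hvK)
            have h5 := hd5 v hk1
            have e1 : cnt inc c' 1 v = cnt inc d 1 v := by
              rw [hcnt 1 (by decide), hcin 1 (by decide) _ hvK, if_neg (fun h => hvg h.1)]; omega
            have e2 : cnt inc c' 2 v = cnt inc d 2 v := by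
              rw [hcnt 2 (by decide), hcin 2 (by decide) _ hvK, if_neg (fun h => hvg h.1)]; omega
            unfold Good
            rw [e1, e2]
            omega
      · by_cases hvg : v ∈ inc (D.g w)
        · rcases (hmem v).mp hvg with h | h | h
          · subst h
            apply good_of hγ
            rw [hcnt γ hγ, hdout γ hγ _ hvK, cnt_zero_of_dg hcw hγ, if_pos ⟨hvg, rfl⟩]
          · subst h
            have h6 := hσ1 (by
              intro u' hu' _ hc
              by_cases hu'u : u' = u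
              · exact hvK (hu'u ▸ hc)
              · exact hother u' hu' hu'u _ hvg hc)
            apply good_of hoγ
            rw [hcnt _ hoγ, hdout _ hoγ _ hvK, one_of_pair h6 hoγ, if_neg (fun h => hoγ' h.2)]
          · subst h
            apply good_of hoγ
            rw [hcnt _ hoγ, hdout _ hoγ _ hvK, hγτ hvK, if_neg (fun h => hoγ' h.2)]
        · apply good_congr _ (hsame v hvg hvK)
          apply hI.good
          rintro (⟨h1, h2⟩ | ⟨u', hu', hu'S, hv'⟩)
          · apply hv
            refine Or.inl ⟨h1, ?_⟩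
            rw [Finset.mem_insert, not_or]
            refine ⟨?_, h2⟩
            rintro rfl
            exact hvg ((hmem _).mpr (Or.inl rfl))
          · apply hv
            refine Or.inr ⟨u', hu', ?_, hv'⟩
            rw [Finset.mem_insert, not_or]
            refine ⟨?_, hu'S⟩
            rintro rfl
            exact hvK hv'
    · -- zero
      rintro v (⟨h1, h2⟩ | ⟨u', hu', hu'S, hv'⟩)
      · rw [Finset.mem_insert, not_or] at h2
        have h3 : v ∉ inc (D.g w) := by
          intro h
          rcases (hmem v).mp h with h | h | h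
          · exact h2.1 h
          · exact hσT (h ▸ h1)
          · exact hτT (h ▸ h1)
        exact dg_of_cnt (hI.zero v (Or.inl ⟨h1, h2.2⟩)) (hsame v h3 (hTK v h1 u huU))
      · rw [Finset.mem_insert, not_or] at hu'S
        have h3 : v ∉ inc (D.g w) := fun h => hother u' hu' hu'S.1 v h hv'
        have h4 : v ∉ VK inc (D.K u) :=
          Finset.disjoint_left.mp (D.hKd u' hu' u huU hu'S.1) hv'
        exact dg_of_cnt (hI.zero v (Or.inr ⟨u', hu', hu'S.2, hv'⟩)) (hsame v h3 h4)
    · -- tie
      intro w' hw' hw'P h2 hX hK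
      have hg' := hslot' w' hw' hw'P h2
      by_cases hyK : D.σ w' ∈ VK inc (D.K u)
      · have hk := D.hK2 u huU _ hyK h2
        have hyx : D.σ w' ≠ x := fun h => hg' (h ▸ hxg')
        have h4 := hd4 _ hyx hk
        apply pair_congr h4
        intro i hi
        rw [hcnt i hi, hcin i hi _ hyK, if_neg (fun h => hg' h.1)]; omega
      · rw [Finset.mem_insert, not_or] at hw'P
        have h5 := hI.tie w' hw' hw'P.2 h2 hX (by
          intro u' hu' hu'S hc
          by_cases hu'u : u' = u
          · exact hyK (hu'u ▸ hc)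
          · exact hK u' hu' (by rw [Finset.mem_insert, not_or]; exact ⟨hu'u, hu'S⟩) hc)
        exact pair_congr h5 (hsame _ hg' hyK)
    · intro u' hu'
      rcases Finset.mem_insert.mp hu' with rfl | hu'
      · exact Or.inr ⟨v0, hv0, hv0K⟩
      · exact Or.inl hu'
    · intro v hv hvK i hi
      exact hsame v hv (hvK u huU huS) i hi
    · intro e he
      have heK : e ∉ D.K u := fun h => he (hcK e h)
      have hde : d e = 0 := by
        by_contra h
        exact heK (hd1 e h)
      have hne : e ≠ D.g w := fun h => he (h ▸ hcg)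
      rw [hc', join, if_pos hde, Function.update_of_ne hne]
  · -- CASE A
    push Not at hB
    have hnoK : ∀ v ∈ inc (D.g w), ∀ u ∈ D.U, u ∉ S → v ∉ VK inc (D.K u) :=
      fun v hv u hu huS => hB u hu huS v hv
    have hσg : D.σ w ∈ inc (D.g w) := (hmem _).mpr (Or.inr (Or.inl rfl))
    have hτg : D.τ w ∈ inc (D.g w) := (hmem _).mpr (Or.inr (Or.inr rfl))
    have h11 := hσ1 (hnoK _ hσg)
    have hgood : Good inc c (D.τ w) := by
      apply hI.good
      rintro (⟨h, -⟩ | ⟨u', hu', hu'S, hv'⟩)
      · exact hτT h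
      · exact hnoK _ hτg u' hu' hu'S hv'
    obtain ⟨γ, hγ, hγτ⟩ := exists_al hgood
    have hoγ : opp γ ≠ 0 := opp_ne_zero hγ
    have hoγ' : γ ≠ opp γ := (opp_ne_self hγ).symm
    have hcnt : ∀ i, i ≠ 0 → ∀ v, cnt inc (Function.update c (D.g w) γ) i v = cnt inc c i v +
        (if v ∈ inc (D.g w) ∧ γ = i then 1 else 0) := by
      intro i hi v
      rw [cnt_update hcg γ hi]
    have hsame : ∀ v, v ∉ inc (D.g w) →
        ∀ i, i ≠ 0 → cnt inc (Function.update c (D.g w) γ) i v = cnt inc c i v := by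
      intro v h1 i hi
      rw [hcnt i hi, if_neg (fun h => h1 h.1)]; omega
    refine ⟨Function.update c (D.g w) γ, S, subset_rfl, ⟨hPT, hI.hS, ?_, ?_, ?_⟩, ?_, ?_, ?_⟩
    · intro v hv
      by_cases hvg : v ∈ inc (D.g w)
      · rcases (hmem v).mp hvg with h | h | h
        · subst h
          apply good_of hγ
          rw [hcnt γ hγ, cnt_zero_of_dg hcw hγ, if_pos ⟨hvg, rfl⟩]
        · subst h
          apply good_of hoγ
          rw [hcnt _ hoγ, one_of_pair h11 hoγ, if_neg (fun h => hoγ' h.2)]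
        · subst h
          apply good_of hoγ
          rw [hcnt _ hoγ, hγτ, if_neg (fun h => hoγ' h.2)]
      · apply good_congr _ (hsame v hvg)
        apply hI.good
        rintro (⟨h1, h2⟩ | h)
        · apply hv
          refine Or.inl ⟨h1, ?_⟩
          rw [Finset.mem_insert, not_or]
          refine ⟨?_, h2⟩
          rintro rfl
          exact hvg ((hmem _).mpr (Or.inl rfl))
        · exact hv (Or.inr h)
    · rintro v (⟨h1, h2⟩ | ⟨u', hu', hu'S, hv'⟩)
      · rw [Finset.mem_insert, not_or] at h2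
        have h3 : v ∉ inc (D.g w) := by
          intro h
          rcases (hmem v).mp h with h | h | h
          · exact h2.1 h
          · exact hσT (h ▸ h1)
          · exact hτT (h ▸ h1)
        exact dg_of_cnt (hI.zero v (Or.inl ⟨h1, h2.2⟩)) (hsame v h3)
      · have h3 : v ∉ inc (D.g w) := fun h => hnoK v h u' hu' hu'S hv'
        exact dg_of_cnt (hI.zero v (Or.inr ⟨u', hu', hu'S, hv'⟩)) (hsame v h3)
    · intro w' hw' hw'P h2 hX hK
      have hg' := hslot' w' hw' hw'P h2
      rw [Finset.mem_insert, not_or] at hw'P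
      exact pair_congr (hI.tie w' hw' hw'P.2 h2 hX hK) (hsame _ hg')
    · intro u' hu'
      exact Or.inl hu'
    · intro v hv _ i hi
      exact hsame v hv i hi
    · intro e he
      have hne : e ≠ D.g w := fun h => he (h ▸ hcg)
      rw [Function.update_of_ne hne]

end Pool.Agent.W91.CF3
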